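import Mathlib
import Pool.Agent.Work.MP_156639_an.Interface

set_option autoImplicit false
set_option linter.unusedSectionVars false

namespace Pool.Agent.MP156639.LDBlock

/-- the index set -/
theorem exists_omega : ∃ (Ω : Type) (_ : LinearOrder Ω) (_ : WellFoundedLT Ω),
    (∀ β : Ω, (Set.Iio β).Countable) ∧ ¬ (Set.univ : Set Ω).Countable ∧
      ∃ r : Ω → (ℕ → Bool), Function.Injective r := by
  refine ⟨(Cardinal.aleph 1).ord.ToType, inferInstance, inferInstance, ?_, ?_, ?_⟩
  · intro β
    have h : Cardinal.mk (Set.Iio β) < Cardinal.aleph 1 := by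
      simpa using Cardinal.mk_Iio_lt β
    rw [← Cardinal.le_aleph0_iff_set_countable]
    exact Order.lt_succ_iff.1 (h.trans_eq Cardinal.succ_aleph0.symm)
  · intro h
    rw [← Cardinal.le_aleph0_iff_set_countable, Cardinal.mk_univ, Cardinal.mk_ord_toType] at h
    exact absurd h (not_le.2 Cardinal.aleph0_lt_aleph_one)
  · have h : Cardinal.mk (Cardinal.aleph 1).ord.ToType ≤ Cardinal.mk (ℕ → Bool) := by
      rw [Cardinal.mk_ord_toType]
      simp only [Cardinal.mk_pi, Cardinal.mk_bool, Cardinal.prod_const, Cardinal.lift_id,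
        Cardinal.mk_nat]
      exact Cardinal.aleph_one_le_continuum
    obtain ⟨f⟩ := h
    exact ⟨f, f.injective⟩

section
variable {Ω : Type} [LinearOrder Ω]

/-- labels: predecessor and a list of bits -/
abbrev Lb (Ω : Type) := Option (Ω × ℕ) × List Bool

/-- the labels admissible at the block `β` -/
def Adm (β : Ω) : Set (Lb Ω) := {x | ∀ s ∈ x.1, s.1 ≤ β}

theorem adm_countable {β : Ω} (h : (Set.Iio β).Countable) : (Adm β).Countable := by
  have h1 : (Set.Iic β).Countable := by
    rw [← Set.Iio_insert]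
    exact h.insert β
  have h2 : (Set.Iic β ×ˢ (Set.univ : Set ℕ)).Countable := h1.prod Set.countable_univ
  have h3 : (insert none (some '' (Set.Iic β ×ˢ (Set.univ : Set ℕ)))).Countable :=
    (h2.image some).insert none
  have h4 : ((insert none (some '' (Set.Iic β ×ˢ (Set.univ : Set ℕ)))) ×ˢ
      (Set.univ : Set (List Bool))).Countable := h3.prod Set.countable_univ
  apply h4.mono
  rintro ⟨p, b⟩ hx
  refine ⟨?_, Set.mem_univ _⟩
  cases p with
  | none => exact Set.mem_insert _ _
  | some s =>
    apply Set.mem_insert_of_mem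
    exact ⟨s, ⟨hx s rfl, Set.mem_univ _⟩, rfl⟩

theorem exists_lab (h : ∀ β : Ω, (Set.Iio β).Countable) :
    ∃ lab : Ω → ℕ → Lb Ω, ∀ β, ∀ x ∈ Adm β, ∀ j₀ : ℕ, ∃ j ≥ j₀, lab β j = x := by
  have : ∀ β : Ω, ∃ lab : ℕ → Lb Ω, ∀ x ∈ Adm β, ∀ j₀ : ℕ, ∃ j ≥ j₀, lab j = x := by
    intro β
    have hne : (Adm β).Nonempty := ⟨(none, []), by intro s hs; simp at hs⟩
    obtain ⟨f, hf⟩ := (adm_countable (h β)).exists_eq_range hne
    refine ⟨fun j => f (Nat.unpair j).1, ?_⟩
    intro x hx j₀
    rw [hf] at hx
    obtain ⟨n, rfl⟩ := hx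
    exact ⟨Nat.pair n j₀, Nat.right_le_pair _ _, by simp⟩
  choose lab hlab using this
  exact ⟨lab, hlab⟩

theorem exists_bs (h : ∀ β : Ω, (Set.Iio β).Countable) :
    ∃ bs : Ω → ℕ → Ω, ∀ β, NonMin β → (∀ a, bs β a < β) ∧ Monotone (bs β) ∧
      ∀ β₀ < β, ∃ a₀, ∀ a ≥ a₀, β₀ ≤ bs β a := by
  have : ∀ β : Ω, ∃ bs : ℕ → Ω, NonMin β → (∀ a, bs a < β) ∧ Monotone bs ∧
      ∀ β₀ < β, ∃ a₀, ∀ a ≥ a₀, β₀ ≤ bs a := by
    intro β
    by_cases hβ : NonMin β
    · obtain ⟨b0, hb0⟩ := hβ
      obtain ⟨f, hf⟩ := (h β).exists_eq_range ⟨b0, hb0⟩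
      have hfl : ∀ n, f n < β := by
        intro n
        have : f n ∈ Set.Iio β := by rw [hf]; exact Set.mem_range_self n
        exact this
      refine ⟨fun a => Nat.rec (f 0) (fun n x => max x (f (n + 1))) a, fun _ => ⟨?_, ?_, ?_⟩⟩
      · intro a
        induction a with
        | zero => exact hfl 0
        | succ n ih => exact max_lt ih (hfl (n + 1))
      · apply monotone_nat_of_le_succ
        intro n
        exact le_max_left _ _
      · intro β₀ hβ₀
        have h1 : β₀ ∈ Set.range f := by rw [← hf]; exact hβ₀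
        obtain ⟨n, rfl⟩ := h1
        refine ⟨n, ?_⟩
        have hmono : Monotone (fun a => Nat.rec (f 0) (fun n x => max x (f (n + 1))) a : ℕ → Ω) := by
          apply monotone_nat_of_le_succ
          intro n
          exact le_max_left _ _
        intro a ha
        refine le_trans ?_ (hmono ha)
        cases n with
        | zero => exact le_refl _
        | succ n => exact le_max_right _ _
    · exact ⟨fun _ => β, fun h => absurd h hβ⟩
  choose bs hbs using this
  exact ⟨bs, hbs⟩

variable (r : Ω → ℕ → Bool) (lab : Ω → ℕ → Lb Ω) (bs : Ω → ℕ → Ω)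

/-- the first `a` bits of `r β` -/
def bits (β : Ω) (a : ℕ) : List Bool := (List.range a).map (r β)

open Classical in
/-- choose a station index at least `j₀` in the block `β` with label `x` -/
noncomputable def pick (β : Ω) (x : Lb Ω) (j₀ : ℕ) : ℕ :=
  if h : ∃ j ≥ j₀, lab β j = x then h.choose else j₀

theorem pick_ge (β : Ω) (x : Lb Ω) (j₀ : ℕ) : j₀ ≤ pick lab β x j₀ := by
  unfold pick
  split_ifs with h
  · exact h.choose_spec.1
  · exact le_refl _

theorem pick_lab {β : Ω} {x : Lb Ω} {j₀ : ℕ} (h : ∃ j ≥ j₀, lab β j = x) :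
    lab β (pick lab β x j₀) = x := by
  unfold pick
  rw [dif_pos h]
  exact h.choose_spec.2

/-- the ladder -/
noncomputable def ladr (β : Ω) : ℕ → Ω × ℕ
  | 0 => (bs β 0, pick lab (bs β 0) (none, []) 1)
  | a + 1 => (bs β (a + 1),
      pick lab (bs β (a + 1)) (some (ladr β a), bits r β (a + 1)) ((ladr β a).2 + 1))

theorem ladr_fst (β : Ω) (a : ℕ) : (ladr r lab bs β a).1 = bs β a := by
  cases a <;> rfl

/-- the predecessor in the ladder -/
noncomputable def prd (β : Ω) : ℕ → Option (Ω × ℕ)
  | 0 => none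
  | a + 1 => some (ladr r lab bs β a)

theorem bits_length (β : Ω) (a : ℕ) : (bits r β a).length = a := by
  simp [bits]

theorem ladr_lab (hlab : ∀ β, ∀ x ∈ Adm β, ∀ j₀ : ℕ, ∃ j ≥ j₀, lab β j = x) {β : Ω}
    (hmono : Monotone (bs β)) (a : ℕ) :
    lab (ladr r lab bs β a).1 (ladr r lab bs β a).2 = (prd r lab bs β a, bits r β a) := by
  cases a with
  | zero =>
    apply pick_lab
    apply hlab
    intro s hs
    simp at hs
  | succ n =>
    apply pick_lab
    apply hlab
    intro s hs
    simp only [Option.mem_def, Option.some.injEq] at hs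
    rw [← hs, ladr_fst]
    exact hmono (Nat.le_succ n)

theorem ladr_strict (β : Ω) : StrictMono (fun a => (ladr r lab bs β a).2) := by
  apply strictMono_nat_of_lt_succ
  intro n
  exact Nat.lt_of_succ_le (pick_ge lab _ _ _)

theorem ladr_pos (β : Ω) (a : ℕ) : 1 ≤ (ladr r lab bs β a).2 := by
  cases a with
  | zero => exact pick_ge lab _ _ _
  | succ n => exact le_trans (Nat.le_add_left _ _) (pick_ge lab _ _ _)

/-- digits of a bit -/
def dg (b : Bool) : ℕ := if b then 1 else 0

theorem dg_inj : Function.Injective dg := by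
  intro a b h
  cases a <;> cases b <;> simp [dg] at h ⊢

theorem dg_ne_two (b : Bool) : dg b ≠ 2 := by
  cases b <;> simp [dg]

/-- the code of a station -/
def code (s : Ω × ℕ) : ℕ → ℕ := fun i =>
  if s.2 = 0 then dg (r s.1 i)
  else
    let b := (lab s.1 s.2).2
    if h : i < b.length then dg (b[i])
    else if i = b.length then 2
    else if i = b.length + 1 then s.2
    else dg (r s.1 (i - (b.length + 2)))

theorem code_zero (β : Ω) (i : ℕ) : code r lab (β, 0) i = dg (r β i) := by
  simp [code]

theorem code_lt {s : Ω × ℕ} (hs : s.2 ≠ 0) {i : ℕ} (hi : i < ((lab s.1 s.2).2).length) :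
    code r lab s i = dg (((lab s.1 s.2).2)[i]) := by
  simp only [code]
  rw [if_neg hs, dif_pos hi]

theorem code_len {s : Ω × ℕ} (hs : s.2 ≠ 0) :
    code r lab s ((lab s.1 s.2).2).length = 2 := by
  simp only [code]
  rw [if_neg hs, dif_neg (lt_irrefl _)]
  simp

theorem code_len1 {s : Ω × ℕ} (hs : s.2 ≠ 0) :
    code r lab s (((lab s.1 s.2).2).length + 1) = s.2 := by
  simp only [code]
  rw [if_neg hs, dif_neg (by omega), if_neg (by omega)]
  simp

theorem code_len2 {s : Ω × ℕ} (hs : s.2 ≠ 0) (i : ℕ) :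
    code r lab s (((lab s.1 s.2).2).length + 2 + i) = dg (r s.1 i) := by
  simp only [code]
  rw [if_neg hs, dif_neg (by omega), if_neg (by omega), if_neg (by omega)]
  congr 2
  omega

theorem code_lt_ne {s : Ω × ℕ} (hs : s.2 ≠ 0) {i : ℕ} (hi : i < ((lab s.1 s.2).2).length) :
    code r lab s i ≠ 2 := by
  rw [code_lt r lab hs hi]
  exact dg_ne_two _

theorem code_inj (hr : Function.Injective r) : Function.Injective (code r lab) := by
  intro s t h
  have hsame : ∀ i, code r lab s i = code r lab t i := fun i => congrFun h i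
  by_cases hs : s.2 = 0
  · by_cases ht : t.2 = 0
    · have : r s.1 = r t.1 := by
        funext i
        apply dg_inj
        have h1 := hsame i
        have es : s = (s.1, 0) := by rw [← hs]
        have et : t = (t.1, 0) := by rw [← ht]
        rw [es, et, code_zero, code_zero] at h1
        exact h1
      exact Prod.ext (hr this) (by rw [hs, ht])
    · exfalso
      have h1 := hsame ((lab t.1 t.2).2).length
      rw [code_len r lab ht] at h1
      have es : s = (s.1, 0) := by rw [← hs]
      rw [es, code_zero] at h1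
      exact dg_ne_two _ h1
  · by_cases ht : t.2 = 0
    · exfalso
      have h1 := hsame ((lab s.1 s.2).2).length
      rw [code_len r lab hs] at h1
      have et : t = (t.1, 0) := by rw [← ht]
      rw [et, code_zero] at h1
      exact dg_ne_two _ h1.symm
    · have hlen : ((lab s.1 s.2).2).length = ((lab t.1 t.2).2).length := by
        rcases lt_trichotomy ((lab s.1 s.2).2).length ((lab t.1 t.2).2).length with h1 | h1 | h1
        · exfalso
          have h2 := hsame ((lab s.1 s.2).2).length
          rw [code_len r lab hs] at h2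
          exact code_lt_ne r lab ht h1 h2.symm
        · exact h1
        · exfalso
          have h2 := hsame ((lab t.1 t.2).2).length
          rw [code_len r lab ht] at h2
          exact code_lt_ne r lab hs h1 h2
      have h2 : s.2 = t.2 := by
        have h3 := hsame (((lab s.1 s.2).2).length + 1)
        rw [code_len1 r lab hs, hlen, code_len1 r lab ht] at h3
        exact h3
      have h3 : r s.1 = r t.1 := by
        funext i
        apply dg_inj
        have h4 := hsame (((lab s.1 s.2).2).length + 2 + i)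
        rw [code_len2 r lab hs, hlen, code_len2 r lab ht] at h4
        exact h4
      exact Prod.ext (hr h3) h2

/-- the type of a vertex at level `L` -/
def typ (L : ℕ) (v : Vx Ω) : ℕ × (ℕ × (ℕ × (Bool × List ℕ))) :=
  (L, v.1, (v.2.2 + (v.1 + 1)) % (2 * (v.1 + 1)), decide (near v.1 v.2.2 = 0 ∧ v.2.2 ≠ 0),
    (List.range L).map (code r lab (ns v)))

/-- the classes -/
def cls (c : ℕ) : Set (Vx Ω) :=
  {v | ∃ L, Encodable.decode c = some (typ r lab L v)}

theorem mem_cls_encode {L : ℕ} {v w : Vx Ω} :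
    w ∈ cls r lab (Encodable.encode (typ r lab L v)) ↔ typ r lab L w = typ r lab L v := by
  unfold cls
  simp only [Encodable.encodek, Option.some.injEq, Set.mem_ofPred_eq]
  constructor
  · rintro ⟨L', h⟩
    have h1 : L = L' := congrArg Prod.fst h
    subst h1
    exact h.symm
  · intro h
    exact ⟨L, h.symm⟩

theorem typ_code {L : ℕ} {v w : Vx Ω} (h : typ r lab L v = typ r lab L w) :
    ∀ i < L, code r lab (ns v) i = code r lab (ns w) i := by
  intro i hi
  have h1 : (List.range L).map (code r lab (ns v)) = (List.range L).map (code r lab (ns w)) := by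
    have := congrArg (fun x => x.2.2.2.2) h
    exact this
  have h2 := List.map_inj_left.1 h1 i (List.mem_range.2 hi)
  exact h2

theorem typ_fst {L : ℕ} {v w : Vx Ω} (h : typ r lab L v = typ r lab L w) : v.1 = w.1 :=
  congrArg (fun x => x.2.1) h

theorem typ_mod {L : ℕ} {v w : Vx Ω} (h : typ r lab L v = typ r lab L w) :
    (v.2.2 + (v.1 + 1)) % (2 * (v.1 + 1)) = (w.2.2 + (w.1 + 1)) % (2 * (w.1 + 1)) :=
  congrArg (fun x => x.2.2.1) h

theorem typ_flag {L : ℕ} {v w : Vx Ω} (h : typ r lab L v = typ r lab L w) :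
    (near v.1 v.2.2 = 0 ∧ v.2.2 ≠ 0) ↔ (near w.1 w.2.2 = 0 ∧ w.2.2 ≠ 0) := by
  have h1 : decide (near v.1 v.2.2 = 0 ∧ v.2.2 ≠ 0) = decide (near w.1 w.2.2 = 0 ∧ w.2.2 ≠ 0) :=
    congrArg (fun x => x.2.2.2.1) h
  exact decide_eq_decide.1 h1

theorem vx_ext {v w : Vx Ω} (h1 : v.1 = w.1) (h2 : ns v = ns w)
    (h3 : (v.2.2 + (v.1 + 1)) % (2 * (v.1 + 1)) = (w.2.2 + (w.1 + 1)) % (2 * (w.1 + 1))) :
    v = w := by
  obtain ⟨N, β, l⟩ := v
  obtain ⟨N', β', l'⟩ := w
  simp only at h1
  subst h1
  simp only [ns, Prod.mk.injEq, near] at h2 h3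
  obtain ⟨rfl, h4⟩ := h2
  have e1 := Nat.div_add_mod (l + (N + 1)) (2 * (N + 1))
  have e2 := Nat.div_add_mod (l' + (N + 1)) (2 * (N + 1))
  rw [h4, h3] at e1
  have : l = l' := by omega
  rw [this]

theorem near_zero (N : ℕ) : near N 0 = 0 := by
  unfold near
  apply Nat.div_eq_of_lt
  omega

theorem sep1_aux (hr : Function.Injective r) (v w : Vx Ω) (hvw : v ≠ w) :
    ∃ c, v ∈ cls r lab c ∧ w ∉ cls r lab c := by
  have : ∃ L, typ r lab L w ≠ typ r lab L v := by
    by_contra hh
    push Not at hh
    apply hvw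
    have h1 : code r lab (ns w) = code r lab (ns v) := by
      funext i
      exact typ_code r lab (hh (i + 1)) i (Nat.lt_succ_self i)
    exact (vx_ext (typ_fst r lab (hh 0)) (code_inj r lab hr h1) (typ_mod r lab (hh 0))).symm
  obtain ⟨L, hL⟩ := this
  exact ⟨_, (mem_cls_encode r lab).2 rfl, fun h => hL ((mem_cls_encode r lab).1 h)⟩

theorem sep2_aux (hr : Function.Injective r)
    (hlab : ∀ β, ∀ x ∈ Adm β, ∀ j₀ : ℕ, ∃ j ≥ j₀, lab β j = x)
    (v : Vx Ω) (N : ℕ) (β : Ω) (hmono : Monotone (bs β)) (hv : v ≠ (N, β, 0)) :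
    ∃ c k, v ∈ cls r lab c ∧ ((N, β, 0) : Vx Ω) ∉ cls r lab c ∧
      ∀ w : Vx Ω, w.1 = N → ∀ a ≥ k, ns w = ladr r lab bs β a → w ∉ cls r lab c := by
  have hnsγ : ns ((N, β, 0) : Vx Ω) = (β, 0) := by simp [ns, near_zero]
  by_cases h1 : v.1 = N
  · by_cases h2 : code r lab (ns v) = code r lab (β, 0)
    · -- the flag
      have h3 := code_inj r lab hr h2
      have hnear : near v.1 v.2.2 = 0 := congrArg Prod.snd h3
      have hβ : v.2.1 = β := congrArg Prod.fst h3
      have hl : v.2.2 ≠ 0 := by
        intro h0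
        apply hv
        obtain ⟨N', β', l'⟩ := v
        simp only at h1 hβ h0
        rw [h1, hβ, h0]
      refine ⟨_, 0, (mem_cls_encode r lab (L := 0)).2 rfl, ?_, ?_⟩
      · intro h
        have h4 := (typ_flag r lab ((mem_cls_encode r lab).1 h)).2 ⟨hnear, hl⟩
        exact h4.2 rfl
      · intro w hw a ha hns h
        have h4 := (typ_flag r lab ((mem_cls_encode r lab).1 h)).2 ⟨hnear, hl⟩
        have h5 : near w.1 w.2.2 = (ladr r lab bs β a).2 := congrArg Prod.snd hns
        have h6 := ladr_pos r lab bs β a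
        omega
    · have : ∃ i, code r lab (ns v) i ≠ code r lab (β, 0) i := by
        by_contra hh
        push Not at hh
        exact h2 (funext hh)
      obtain ⟨i, hi⟩ := this
      refine ⟨_, i + 1, (mem_cls_encode r lab (L := i + 1)).2 rfl, ?_, ?_⟩
      · intro h
        have h4 := typ_code r lab ((mem_cls_encode r lab).1 h) i (Nat.lt_succ_self i)
        rw [hnsγ] at h4
        exact hi h4.symm
      · intro w hw a ha hns h
        have h4 := typ_code r lab ((mem_cls_encode r lab).1 h) i (Nat.lt_succ_self i)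
        apply hi
        rw [← h4, hns, code_zero]
        have h5 := ladr_lab r lab bs hlab hmono a
        have h6 : (lab (ladr r lab bs β a).1 (ladr r lab bs β a).2).2 = bits r β a := by rw [h5]
        have h7 : i < ((lab (ladr r lab bs β a).1 (ladr r lab bs β a).2).2).length := by
          rw [h6, bits_length]; omega
        have h8 : (ladr r lab bs β a).2 ≠ 0 := by
          have := ladr_pos r lab bs β a
          omega
        rw [code_lt r lab h8 h7]
        congr 1
        have h9 : ((lab (ladr r lab bs β a).1 (ladr r lab bs β a).2).2)[i]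
            = (bits r β a)[i]'(by rw [bits_length]; omega) := by
          congr 1
        rw [h9]
        simp [bits]
  · refine ⟨_, 0, (mem_cls_encode r lab (L := 0)).2 rfl, ?_, ?_⟩
    · intro h
      exact h1 (typ_fst r lab ((mem_cls_encode r lab).1 h)).symm
    · intro w hw a ha hns h
      exact h1 ((typ_fst r lab ((mem_cls_encode r lab).1 h)).symm.trans hw)

theorem tree_aux (hlab : ∀ β, ∀ x ∈ Adm β, ∀ j₀ : ℕ, ∃ j ≥ j₀, lab β j = x) {β β' : Ω}
    (hmono : Monotone (bs β)) (hmono' : Monotone (bs β')) :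
    ∀ a a', ladr r lab bs β a = ladr r lab bs β' a' →
      a = a' ∧ ∀ c ≤ a, ladr r lab bs β c = ladr r lab bs β' c := by
  intro a
  induction a with
  | zero =>
    intro a' h
    have h1 := ladr_lab r lab bs hlab hmono 0
    have h2 := ladr_lab r lab bs hlab hmono' a'
    rw [h, h2] at h1
    have h3 : bits r β' a' = bits r β 0 := congrArg Prod.snd h1
    have h4 : a' = 0 := by
      have := congrArg List.length h3
      rwa [bits_length, bits_length] at this
    subst h4
    refine ⟨rfl, ?_⟩
    intro c hc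
    obtain rfl : c = 0 := Nat.le_zero.1 hc
    exact h
  | succ n ih =>
    intro a' h
    have h1 := ladr_lab r lab bs hlab hmono (n + 1)
    have h2 := ladr_lab r lab bs hlab hmono' a'
    rw [h, h2] at h1
    have h3 : bits r β' a' = bits r β (n + 1) := congrArg Prod.snd h1
    have h4 : a' = n + 1 := by
      have := congrArg List.length h3
      rwa [bits_length, bits_length] at this
    subst h4
    have h5 : prd r lab bs β' (n + 1) = prd r lab bs β (n + 1) := congrArg Prod.fst h1
    have h6 : ladr r lab bs β n = ladr r lab bs β' n := by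
      simp only [prd, Option.some.injEq] at h5
      exact h5.symm
    refine ⟨rfl, ?_⟩
    intro c hc
    rcases Nat.lt_or_ge c (n + 1) with h7 | h7
    · exact (ih n h6).2 c (Nat.lt_succ_iff.1 h7)
    · obtain rfl : c = n + 1 := le_antisymm hc h7
      exact h

theorem ad_aux (hr : Function.Injective r)
    (hlab : ∀ β, ∀ x ∈ Adm β, ∀ j₀ : ℕ, ∃ j ≥ j₀, lab β j = x) {β β' : Ω}
    (hmono : Monotone (bs β)) (hmono' : Monotone (bs β')) (hne : β ≠ β') :
    ∃ a₀, ∀ a ≥ a₀, ladr r lab bs β a ≠ ladr r lab bs β' a := by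
  have : ∃ i, r β i ≠ r β' i := by
    by_contra hh
    push Not at hh
    exact hne (hr (funext hh))
  obtain ⟨i, hi⟩ := this
  refine ⟨i + 1, fun a ha h => hi ?_⟩
  have h1 := ladr_lab r lab bs hlab hmono a
  have h2 := ladr_lab r lab bs hlab hmono' a
  rw [h, h2] at h1
  have h3 : bits r β' a = bits r β a := congrArg Prod.snd h1
  exact (List.map_inj_left.1 h3 i (List.mem_range.2 (by omega))).symm

end

end Pool.Agent.MP156639.LDBlock

namespace Pool.Agent.MP156639

open LDBlock

theorem stmt_LD : Stmt_LD := by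
  obtain ⟨Ω, i1, i2, hc, hu, r, hr⟩ := exists_omega
  obtain ⟨lab, hlab⟩ := exists_lab hc
  obtain ⟨bs, hbs⟩ := exists_bs hc
  refine ⟨Ω, i1, i2, hc, hu, ⟨?_⟩⟩
  exact
    { lad := ladr r lab bs
      dep := fun s => ((lab s.1 s.2).2).length
      A := cls r lab
      lad_lt := by
        intro β hβ a
        rw [ladr_fst]
        exact (hbs β hβ).1 a
      lad_mono := by
        intro β hβ a b hab
        simp only [ladr_fst]
        exact (hbs β hβ).2.1 hab
      lad_cof := by
        intro β hβ β₀ hβ₀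
        obtain ⟨a₀, h⟩ := (hbs β hβ).2.2 β₀ hβ₀
        exact ⟨a₀, fun a ha => by rw [ladr_fst]; exact h a ha⟩
      lad_pos := fun β _ a => ladr_pos r lab bs β a
      lad_strict := fun β _ => ladr_strict r lab bs β
      lad_dep := by
        intro β hβ a
        show ((lab (ladr r lab bs β a).1 (ladr r lab bs β a).2).2).length = a
        rw [ladr_lab r lab bs hlab (hbs β hβ).2.1 a, bits_length]
      lad_tree := fun β β' hβ hβ' a a' h =>
        tree_aux r lab bs hlab (hbs β hβ).2.1 (hbs β' hβ').2.1 a a' h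
      lad_ad := fun β β' hβ hβ' hne =>
        ad_aux r lab bs hr hlab (hbs β hβ).2.1 (hbs β' hβ').2.1 hne
      sep1 := sep1_aux r lab hr
      sep2 := fun v N β hβ hv => sep2_aux r lab bs hr hlab v N β (hbs β hβ).2.1 hv }

end Pool.Agent.MP156639
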