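import Mathlib
import Pool.Agent.Work.MP_156639_an.Interface
import Pool.Agent.Work.MP_156639_an.Basic

set_option autoImplicit false

open Filter Topology

namespace Pool.Agent.MP156639
namespace WBlock

variable {Ω : Type} [LinearOrder Ω] {D : LD Ω}

theorem sc_mono {n : ℕ} {C C' : ℝ} {f : Pt Ω → ℝ} (hC : C ≤ C') (h : D.Sc n C f) :
    D.Sc n C' f where
  link β l m := (h.link β l m).trans hC
  fib c hc v hv hd ms hms := (h.fib c hc v hv hd ms hms).trans
    (mul_le_mul_of_nonneg_right hC (by positivity))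
  path hn N β hβ a b m hab := (h.path hn N β hβ a b m hab).trans
    (mul_le_mul_of_nonneg_right hC (by positivity))

theorem sc_add {n : ℕ} {C C' : ℝ} {f g : Pt Ω → ℝ} (h : D.Sc n C f) (h' : D.Sc n C' g) :
    D.Sc n (C + C') (f + g) where
  link β l m := by
    refine le_trans ?_ (add_le_add (h.link β l m) (h'.link β l m))
    rw [← mul_add]
    apply mul_le_mul_of_nonneg_left _ (by positivity)
    simp only [Pi.add_apply]
    rw [add_sub_add_comm]
    exact abs_add_le _ _
  fib c hc v hv hd ms hms := by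
    rw [add_mul]
    refine le_trans ?_ (add_le_add (h.fib c hc v hv hd ms hms) (h'.fib c hc v hv hd ms hms))
    rw [← Finset.sum_add_distrib]
    apply Finset.sum_le_sum
    intro i _
    simp only [Pi.add_apply]
    rw [add_sub_add_comm]
    exact abs_add_le _ _
  path hn N β hβ a b m hab := by
    rw [add_mul]
    refine le_trans ?_ (add_le_add (h.path hn N β hβ a b m hab)
      (h'.path hn N β hβ a b m hab))
    rw [← Finset.sum_add_distrib]
    apply Finset.sum_le_sum
    intro i _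
    simp only [Pi.add_apply]
    rw [add_sub_add_comm]
    exact abs_add_le _ _

theorem sc_smul {n : ℕ} {C : ℝ} {f : Pt Ω → ℝ} (c : ℝ) (h : D.Sc n C f) :
    D.Sc n (|c| * C) (c • f) where
  link β l m := by
    simp only [Pi.smul_apply, smul_eq_mul]
    rw [← mul_sub, abs_mul]
    calc ((n : ℝ) + 1) * (|c| * |f ((n, β, l), m) - f ((n, β, l + 1), m)|)
        = |c| * (((n : ℝ) + 1) * |f ((n, β, l), m) - f ((n, β, l + 1), m)|) := by ring
      _ ≤ |c| * C := mul_le_mul_of_nonneg_left (h.link β l m) (abs_nonneg c)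
  fib c' hc v hv hd ms hms := by
    simp only [Pi.smul_apply, smul_eq_mul]
    calc ∑ i ∈ Finset.range (Kn n), |c * f (v, ms (i + 1)) - c * f (v, ms i)|
        = |c| * ∑ i ∈ Finset.range (Kn n), |f (v, ms (i + 1)) - f (v, ms i)| := by
          rw [Finset.mul_sum]
          apply Finset.sum_congr rfl
          intro i _
          rw [← mul_sub, abs_mul]
      _ ≤ |c| * (C * (th n : ℝ)) :=
          mul_le_mul_of_nonneg_left (h.fib c' hc v hv hd ms hms) (abs_nonneg c)
      _ = |c| * C * (th n : ℝ) := by ring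
  path hn N β hβ a b m hab := by
    simp only [Pi.smul_apply, smul_eq_mul]
    calc ∑ i ∈ Finset.range (Kn n), |c * f (st N (D.lad β (a i)), m i)
            - c * f (st N (D.lad β (b i)), m i)|
        = |c| * ∑ i ∈ Finset.range (Kn n), |f (st N (D.lad β (a i)), m i)
            - f (st N (D.lad β (b i)), m i)| := by
          rw [Finset.mul_sum]
          apply Finset.sum_congr rfl
          intro i _
          rw [← mul_sub, abs_mul]
      _ ≤ |c| * (C * (th n : ℝ)) :=
          mul_le_mul_of_nonneg_left (h.path hn N β hβ a b m hab) (abs_nonneg c)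
      _ = |c| * C * (th n : ℝ) := by ring

theorem sc_of_bd {C : ℝ} {f : Pt Ω → ℝ} (h : D.Bd C f) (n : ℕ) : D.Sc n C f where
  link β l m := h.link n β l m
  fib c hc v hv hd ms hms := h.fib n c hc v hv hd ms hms
  path hn N β hβ a b m hab := h.path n hn N β hβ a b m hab

theorem bd_of_sc {C : ℝ} {f : Pt Ω → ℝ} (h0 : ∀ p, |f p| ≤ C) (h : ∀ n, D.Sc n C f) :
    D.Bd C f where
  pt := h0
  link N β l m := (h N).link β l m
  fib n c hc v hv hd ms hms := (h n).fib c hc v hv hd ms hms
  path n hn N β hβ a b m hab := (h n).path hn N β hβ a b m hab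

theorem sc_dom (n : ℕ) {C : ℝ} (hC : 0 ≤ C) {f : Pt Ω → ℝ} (h0 : ∀ p, |f p| ≤ C) :
    D.Sc n ((2 * ((n : ℝ) + 1) + 2 * (Kn n : ℝ)) * C) f := by
  have hd : ∀ p q, |f p - f q| ≤ 2 * C := by
    intro p q
    have := abs_sub (f p) (f q)
    have h1 := h0 p
    have h2 := h0 q
    linarith
  have hK : (0 : ℝ) ≤ (Kn n : ℝ) := by positivity
  have hn : (0 : ℝ) ≤ (n : ℝ) + 1 := by positivity
  have hth := one_le_th n
  have hbig : (Kn n : ℝ) * (2 * C) ≤ (2 * ((n : ℝ) + 1) + 2 * (Kn n : ℝ)) * C * (th n : ℝ) := by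
    have h1 : (Kn n : ℝ) * (2 * C) ≤ (2 * ((n : ℝ) + 1) + 2 * (Kn n : ℝ)) * C := by
      have : 0 ≤ ((n : ℝ) + 1) * C := by positivity
      nlinarith
    have h2 : (2 * ((n : ℝ) + 1) + 2 * (Kn n : ℝ)) * C * 1
        ≤ (2 * ((n : ℝ) + 1) + 2 * (Kn n : ℝ)) * C * (th n : ℝ) :=
      mul_le_mul_of_nonneg_left hth (by positivity)
    linarith
  refine ⟨?_, ?_, ?_⟩
  · intro β l m
    have h1 : ((n : ℝ) + 1) * |f ((n, β, l), m) - f ((n, β, l + 1), m)| ≤ ((n : ℝ) + 1) * (2 * C) :=
      mul_le_mul_of_nonneg_left (hd _ _) hn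
    have h2 : 0 ≤ (Kn n : ℝ) * C := by positivity
    linarith
  · intro c hc v hv hdv ms hms
    refine le_trans ?_ hbig
    calc ∑ i ∈ Finset.range (Kn n), |f (v, ms (i + 1)) - f (v, ms i)|
        ≤ ∑ i ∈ Finset.range (Kn n), 2 * C := Finset.sum_le_sum (fun i _ => hd _ _)
      _ = (Kn n : ℝ) * (2 * C) := by simp
  · intro hl N β hβ a b m hab
    refine le_trans ?_ hbig
    calc ∑ i ∈ Finset.range (Kn n), |f (st N (D.lad β (a i)), m i) - f (st N (D.lad β (b i)), m i)|
        ≤ ∑ i ∈ Finset.range (Kn n), 2 * C := Finset.sum_le_sum (fun i _ => hd _ _)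
      _ = (Kn n : ℝ) * (2 * C) := by simp

end WBlock

open WBlock in
theorem stmt_W (hO3 : Stmt_O3) (hW1 : Stmt_W1) (hW2 : Stmt_W2) : Stmt_W := by
  intro Ω _ D Y _ _ val hval w hB hw0 g
  obtain ⟨B, hB⟩ := hB
  by_contra hcon
  -- a subsequence
  have h1 : ∃ η > 0, ∃ᶠ k in atTop, η ≤ |g (w k)| := by
    by_contra hh
    push Not at hh
    apply hcon
    rw [Metric.tendsto_nhds]
    intro ε hε
    have h2 := hh ε hε
    filter_upwards [h2] with k hk
    rw [Real.dist_eq, sub_zero]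
    exact hk
  obtain ⟨η, hη, hfr⟩ := h1
  obtain ⟨φ, hφ, hφη⟩ := Filter.extraction_of_frequently_atTop hfr
  set B' : ℝ := max B 1 with hB'
  have hB'0 : 0 < B' := lt_of_lt_of_le one_pos (le_max_right _ _)
  -- signs
  have hsgn : ∀ k, ∃ σ : ℝ, |σ| = 1 ∧ σ * g (w (φ k)) = |g (w (φ k))| := by
    intro k
    rcases le_or_gt 0 (g (w (φ k))) with h | h
    · exact ⟨1, by simp, by rw [abs_of_nonneg h]; ring⟩
    · exact ⟨-1, by simp, by rw [abs_of_neg h]; ring⟩
  choose σ hσ1 hσ2 using hsgn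
  let u : ℕ → Y := fun k => (σ k / B') • w (φ k)
  have hu1 : ∀ k, ‖u k‖ ≤ 1 := by
    intro k
    show ‖(σ k / B') • w (φ k)‖ ≤ 1
    rw [norm_smul, Real.norm_eq_abs, abs_div, hσ1, abs_of_pos hB'0, one_div,
      inv_mul_le_iff₀ hB'0, mul_one]
    exact (hB _).trans (le_max_left _ _)
  have hug : ∀ k, η / B' ≤ g (u k) := by
    intro k
    show η / B' ≤ g ((σ k / B') • w (φ k))
    rw [map_smul, smul_eq_mul]
    have : σ k / B' * g (w (φ k)) = |g (w (φ k))| / B' := by rw [← hσ2]; ring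
    rw [this]
    exact div_le_div_of_nonneg_right (hφη k) hB'0.le
  have hu0 : ∀ p, Tendsto (fun k => val (u k) p) atTop (𝓝 0) := by
    intro p
    have h2 : Tendsto (fun k => val (w (φ k)) p) atTop (𝓝 0) := (hw0 p).comp hφ.tendsto_atTop
    have h3 : Tendsto (fun k => |val (w (φ k)) p| / B') atTop (𝓝 0) := by
      have := h2.abs.div_const B'
      simpa using this
    apply squeeze_zero_norm _ h3
    intro k
    show ‖val ((σ k / B') • w (φ k)) p‖ ≤ _
    rw [map_smul]
    simp only [Pi.smul_apply, smul_eq_mul, Real.norm_eq_abs]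
    rw [abs_mul, abs_div, hσ1, abs_of_pos hB'0]
    rw [one_div, inv_mul_eq_div]
  obtain ⟨k, hk, hk10⟩ := hW2 Ω D Y val hval u hu1 hu0
  obtain ⟨E, hE, hE'⟩ := hW1 Y (fun n C y => D.Sc n C (val y)) (fun C y => ∀ p, |val y p| ≤ C)
    (fun n C C' y h h' => sc_mono h h')
    (fun C C' y h h' p => (h' p).trans h)
    (fun n C C' y y' h h' => by
      show D.Sc n (C + C') (val (y + y'))
      rw [map_add]; exact sc_add h h')
    (fun C C' y y' h h' p => by
      rw [map_add]
      exact (abs_add_le _ _).trans (add_le_add (h p) (h' p)))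
    (fun n C c y h => by
      show D.Sc n (|c| * C) (val (c • y))
      rw [map_smul]; exact sc_smul c h)
    (fun C c y h p => by
      rw [map_smul]
      simp only [Pi.smul_apply, smul_eq_mul]
      rw [abs_mul]
      exact mul_le_mul_of_nonneg_left (h p) (abs_nonneg c))
    (fun y => ⟨(hval.bd y).pt, fun n => sc_of_bd (hval.bd y) n⟩)
    (fun y C hC h h' => hval.le y C hC (bd_of_sc h h'))
    (fun n => ⟨2 * ((n : ℝ) + 1) + 2 * (Kn n : ℝ), by positivity, fun C y hC h => sc_dom n hC h⟩)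
    (fun y ε hε => hO3 Ω D Y val hval y ε hε) g (η / B' / 2) (by positivity)
  -- the sums
  have key : ∀ L : ℕ, (L : ℝ) * (η / B') ≤ E * 10 + η / B' / 2 * L := by
    intro L
    have h2 : ∀ p, |val (∑ i ∈ Finset.range L, u (k i)) p| ≤ 10 := by
      intro p
      rw [map_sum, Finset.sum_apply]
      exact (Finset.abs_sum_le_sum_abs _ _).trans (hk10 p L)
    have h3 := hE' _ 10 (by norm_num) h2
    have h4 : ‖∑ i ∈ Finset.range L, u (k i)‖ ≤ L := by
      refine (norm_sum_le _ _).trans ?_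
      calc ∑ i ∈ Finset.range L, ‖u (k i)‖ ≤ ∑ i ∈ Finset.range L, (1 : ℝ) :=
            Finset.sum_le_sum (fun i _ => hu1 _)
        _ = L := by simp
    have h5 : (L : ℝ) * (η / B') ≤ g (∑ i ∈ Finset.range L, u (k i)) := by
      rw [map_sum]
      calc (L : ℝ) * (η / B') = ∑ i ∈ Finset.range L, η / B' := by simp
        _ ≤ _ := Finset.sum_le_sum (fun i _ => hug _)
    have h6 : η / B' / 2 * ‖∑ i ∈ Finset.range L, u (k i)‖ ≤ η / B' / 2 * L :=
      mul_le_mul_of_nonneg_left h4 (by positivity)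
    have h7 := le_abs_self (g (∑ i ∈ Finset.range L, u (k i)))
    linarith
  obtain ⟨L, hL⟩ := exists_nat_gt (E * 10 / (η / B' / 2))
  have hpos : 0 < η / B' / 2 := by positivity
  rw [div_lt_iff₀ hpos] at hL
  have := key L
  linarith

end Pool.Agent.MP156639
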