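import Mathlib
import Pool.Agent.Work.MP_156639_an.Interface
import Pool.Agent.Work.MP_156639_an.Basic

set_option autoImplicit false

open Filter Topology

namespace Pool.Agent.MP156639
namespace W2Block

variable {Ω : Type} [LinearOrder Ω] (D : LD Ω)

/-- vertices whose station is a node of two ladders of `G` of the same component -/
def Shared (G : Set (ℕ × Ω)) : Set (Vx Ω) :=
  {v | ∃ g ∈ G, ∃ g' ∈ G, g ≠ g' ∧ g.1 = g'.1 ∧ v.1 = g.1 ∧ (∃ a, ns v = D.lad g.2 a) ∧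
    ∃ a', ns v = D.lad g'.2 a'}

theorem shared_finite {G : Set (ℕ × Ω)} (hG : G.Finite) (hN : ∀ g ∈ G, NonMin g.2) :
    (Shared D G).Finite := by
  have h1 : Shared D G ⊆ ⋃ g ∈ G, ⋃ g' ∈ G, {v : Vx Ω | g ≠ g' ∧ g.1 = g'.1 ∧ v.1 = g.1 ∧
      (∃ a, ns v = D.lad g.2 a) ∧ ∃ a', ns v = D.lad g'.2 a'} := by
    rintro v ⟨g, hg, g', hg', h⟩
    simp only [Set.mem_iUnion]
    exact ⟨g, hg, g', hg', h⟩
  apply Set.Finite.subset _ h1
  apply hG.biUnion
  intro g hg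
  apply hG.biUnion
  intro g' hg'
  by_cases hne : g = g'
  · convert Set.finite_empty
    rw [Set.eq_empty_iff_forall_notMem]
    rintro v ⟨h, -⟩
    exact h hne
  by_cases hcomp : g.1 = g'.1
  · have hβ : g.2 ≠ g'.2 := fun h => hne (Prod.ext hcomp h)
    obtain ⟨a₀, ha₀⟩ := D.lad_ad g.2 g'.2 (hN g hg) (hN g' hg') hβ
    have h2 : (⋃ a ∈ Set.Iio a₀, {v : Vx Ω | v.1 = g.1 ∧ ns v = D.lad g.2 a}).Finite :=
      (Set.finite_Iio a₀).biUnion (fun a _ => window_finite _ _)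
    apply h2.subset
    rintro v ⟨-, -, hv, ⟨a, ha⟩, ⟨a', ha'⟩⟩
    simp only [Set.mem_iUnion]
    refine ⟨a, ?_, hv, ha⟩
    rw [Set.mem_Iio]
    by_contra hh
    push Not at hh
    have h3 : D.lad g.2 a = D.lad g'.2 a' := ha.symm.trans ha'
    have h4 := (D.lad_tree g.2 g'.2 (hN g hg) (hN g' hg') a a' h3).1
    rw [← h4] at h3
    exact ha₀ a hh h3
  · convert Set.finite_empty
    rw [Set.eq_empty_iff_forall_notMem]
    rintro v ⟨-, h, -⟩
    exact hcomp h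

/-- the state of the construction: last index, forbidden points, limit vertices -/
structure State (Ω : Type) [LinearOrder Ω] where
  k : ℕ
  A : Set (Pt Ω)
  G : Set (ℕ × Ω)
  hA : A.Finite
  hG : G.Finite
  hN : ∀ g ∈ G, NonMin g.2

variable {Y : Type} [NormedAddCommGroup Y] [NormedSpace ℝ Y]

/-- the relation between consecutive states -/
structure Rel (val : Y →ₗ[ℝ] (Pt Ω → ℝ)) (w : ℕ → Y) (ε : ℝ) (x x' : State Ω) : Prop where
  lt : x.k < x'.k
  subA : x.A ⊆ x'.A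
  subG : x.G ⊆ x'.G
  small : ∀ p ∈ x.A, |val (w x'.k) p| ≤ ε
  bad : ∀ p ∉ x'.A, ε < |val (w x'.k) p| → ∃ g ∈ x'.G, p.1.1 = g.1 ∧
    (∃ a, ns p.1 = D.lad g.2 a) ∧ |val (w x'.k) p| ≤ ε + |val (w x'.k) ((g.1, g.2, 0), p.2)| ∧
    (((g.1, g.2, 0), p.2) : Pt Ω) ∈ x'.A ∧
    ∀ g' ∈ x'.G, g'.1 = g.1 → (∃ a, ns p.1 = D.lad g'.2 a) → g' = g

theorem step {val : Y →ₗ[ℝ] (Pt Ω → ℝ)} (hO5 : ∀ y : Y, ∀ ε > 0,
      ∃ (F : Set (Pt Ω)) (Γ : Set (ℕ × Ω)) (M : ℕ), F.Finite ∧ Γ.Finite ∧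
        (∀ g ∈ Γ, NonMin g.2) ∧ (∀ m ≥ M, ∀ v, |val y (v, m)| ≤ ε) ∧
        ∀ p : Pt Ω, p ∉ F → |val y p| ≤ ε ∨
          ∃ g ∈ Γ, p.1.1 = g.1 ∧ (∃ a, ns p.1 = D.lad g.2 a) ∧
            |val y p - tent p.1.1 p.1.2.2 * val y ((g.1, g.2, 0), p.2)| ≤ ε)
    {w : ℕ → Y} (hw : ∀ p, Tendsto (fun k => val (w k) p) atTop (𝓝 0)) {ε : ℝ} (hε : 0 < ε)
    (x : State Ω) : ∃ x' : State Ω, Rel D val w ε x x' := by
  -- the index
  have h1 : ∀ᶠ k in atTop, ∀ p ∈ x.A, |val (w k) p| ≤ ε := by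
    rw [Filter.eventually_all_finite x.hA]
    intro p _
    have h2 := (hw p).abs
    rw [abs_zero] at h2
    exact (h2.eventually (gt_mem_nhds hε)).mono (fun k hk => hk.le)
  obtain ⟨k, hk1, hk2⟩ := (h1.and (eventually_gt_atTop x.k)).exists
  obtain ⟨F, Γ, M, hF, hΓ, hΓN, hM, hp⟩ := hO5 (w k) ε hε
  have hG' : (x.G ∪ Γ).Finite := x.hG.union hΓ
  have hN' : ∀ g ∈ x.G ∪ Γ, NonMin g.2 := by
    rintro g (hg | hg)
    · exact x.hN g hg
    · exact hΓN g hg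
  have hSh : (Shared D (x.G ∪ Γ) ×ˢ Set.Iio M).Finite :=
    (shared_finite D hG' hN').prod (Set.finite_Iio M)
  have hLi : ((fun q : (ℕ × Ω) × ℕ => (((q.1.1, q.1.2, 0), q.2) : Pt Ω)) ''
      ((x.G ∪ Γ) ×ˢ Set.Iio M)).Finite := (hG'.prod (Set.finite_Iio M)).image _
  refine ⟨⟨k, x.A ∪ (F ∪ (Shared D (x.G ∪ Γ) ×ˢ Set.Iio M ∪
      (fun q : (ℕ × Ω) × ℕ => (((q.1.1, q.1.2, 0), q.2) : Pt Ω)) '' ((x.G ∪ Γ) ×ˢ Set.Iio M))),
    x.G ∪ Γ, x.hA.union (hF.union (hSh.union hLi)), hG', hN'⟩, ?_⟩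
  refine ⟨hk2, Set.subset_union_left, Set.subset_union_left, hk1, ?_⟩
  intro p hpA hpε
  simp only [Set.mem_union, not_or] at hpA
  obtain ⟨hpA, hpF, hpS, hpL⟩ := hpA
  have hmM : p.2 < M := by
    by_contra hh
    push Not at hh
    have := hM p.2 hh p.1
    exact absurd this (not_le.2 hpε)
  rcases hp p hpF with h3 | ⟨g, hg, hg1, ⟨a, ha⟩, hgt⟩
  · exact absurd h3 (not_le.2 hpε)
  · have hgG : g ∈ x.G ∪ Γ := Or.inr hg
    refine ⟨g, hgG, hg1, ⟨a, ha⟩, ?_, ?_, ?_⟩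
    · have h4 : |tent p.1.1 p.1.2.2 * val (w k) ((g.1, g.2, 0), p.2)|
          ≤ |val (w k) ((g.1, g.2, 0), p.2)| := by
        rw [abs_mul, abs_of_nonneg (tent_nonneg _ _)]
        exact mul_le_of_le_one_left (abs_nonneg _) (tent_le_one _ _)
      have h5 : |val (w k) p| ≤ |val (w k) p - tent p.1.1 p.1.2.2 * val (w k) ((g.1, g.2, 0), p.2)|
          + |tent p.1.1 p.1.2.2 * val (w k) ((g.1, g.2, 0), p.2)| := by
        have := abs_add_le (val (w k) p - tent p.1.1 p.1.2.2 * val (w k) ((g.1, g.2, 0), p.2))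
          (tent p.1.1 p.1.2.2 * val (w k) ((g.1, g.2, 0), p.2))
        simpa using this
      linarith
    · refine Or.inr (Or.inr (Or.inr ?_))
      exact ⟨(g, p.2), ⟨hgG, hmM⟩, rfl⟩
    · intro g' hg' hcomp hns
      by_contra hne
      apply hpS
      exact ⟨⟨g', hg', g, hgG, hne, hcomp, by rw [hcomp]; exact hg1, hns, ⟨a, ha⟩⟩, hmM⟩

end W2Block

open W2Block in
theorem stmt_W2 (hO5 : Stmt_O5) : Stmt_W2 := by
  classical
  intro Ω _ D Y _ _ val hval w hw1 hw0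
  have hst : ∀ (i : ℕ) (x : State Ω), ∃ x' : State Ω, Rel D val w ((1 / 2 : ℝ) ^ (i + 1)) x x' :=
    fun i x => step D (hO5 Ω D Y val hval) hw0 (by positivity) x
  choose nx hnx using hst
  obtain ⟨X, hX0, hX⟩ : ∃ X : ℕ → State Ω, X 0 = ⟨0, ∅, ∅, Set.finite_empty, Set.finite_empty,
      fun g hg => absurd hg (Set.notMem_empty g)⟩ ∧ ∀ i, X (i + 1) = nx i (X i) :=
    ⟨fun i => Nat.rec (motive := fun _ => State Ω) ⟨0, ∅, ∅, Set.finite_empty, Set.finite_empty,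
      fun g hg => absurd hg (Set.notMem_empty g)⟩ (fun i x => nx i x) i, rfl, fun _ => rfl⟩
  have hR : ∀ i, Rel D val w ((1 / 2 : ℝ) ^ (i + 1)) (X i) (X (i + 1)) := by
    intro i
    rw [hX]
    exact hnx i (X i)
  have hAmono : Monotone (fun i => (X i).A) := monotone_nat_of_le_succ (fun i => (hR i).subA)
  have hGmono : Monotone (fun i => (X i).G) := monotone_nat_of_le_succ (fun i => (hR i).subG)
  refine ⟨fun i => (X (i + 1)).k, strictMono_nat_of_lt_succ (fun i => (hR (i + 1)).lt), ?_⟩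
  intro p L
  have hle1 : ∀ i q, |val (w ((X (i + 1)).k)) q| ≤ 1 := fun i q =>
    ((hval.bd _).pt q).trans (hw1 _)
  -- exceptional indices
  let P1 : ℕ → Prop := fun i => p ∈ (X (i + 1)).A
  let P2 : ℕ → Prop := fun i => p ∉ (X (i + 1)).A ∧
    (1 / 2 : ℝ) ^ (i + 1) < |val (w ((X (i + 1)).k)) p|
  let i1 : ℕ := if h : ∃ i, P1 i then Nat.find h else 0
  let i2 : ℕ := if h : ∃ i, P2 i then Nat.find h else 0
  have hmain : ∀ i, |val (w ((X (i + 1)).k)) p| ≤ (1 / 2 : ℝ) ^ i +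
      ((if i = i1 then 1 else 0) + (if i = i2 then 1 else 0)) := by
    intro i
    have hp1 : (0 : ℝ) < (1 / 2 : ℝ) ^ i := by positivity
    have hp2 : (1 / 2 : ℝ) ^ (i + 1) ≤ (1 / 2 : ℝ) ^ i := by
      rw [pow_succ]; linarith
    by_cases e1 : i = i1
    · have := hle1 i p
      rw [if_pos e1]
      split_ifs <;> linarith
    by_cases e2 : i = i2
    · have := hle1 i p
      rw [if_pos e2]
      split_ifs <;> linarith
    rw [if_neg e1, if_neg e2, add_zero, add_zero]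
    by_cases hP1 : P1 i
    · -- after `i1`
      have hex : ∃ i, P1 i := ⟨i, hP1⟩
      have hi1 : i1 = Nat.find hex := dif_pos hex
      have h2 : Nat.find hex ≤ i := Nat.find_min' hex hP1
      have h3 : Nat.find hex < i := lt_of_le_of_ne h2 (by rw [← hi1]; exact fun h => e1 h.symm)
      have h4 : p ∈ (X (Nat.find hex + 1)).A := Nat.find_spec hex
      have h5 : p ∈ (X i).A := hAmono h3 h4
      exact ((hR i).small p h5).trans hp2
    · by_cases hP2 : P2 i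
      · have hex : ∃ i, P2 i := ⟨i, hP2⟩
        have hi2 : i2 = Nat.find hex := dif_pos hex
        have h2 : Nat.find hex ≤ i := Nat.find_min' hex hP2
        have h3 : Nat.find hex < i := lt_of_le_of_ne h2 (by rw [← hi2]; exact fun h => e2 h.symm)
        obtain ⟨h4, h5⟩ := Nat.find_spec hex
        obtain ⟨g, hg, hg1, hga, -, hgA, -⟩ := (hR (Nat.find hex)).bad p h4 h5
        obtain ⟨g', hg', hg1', hga', hb', hgA', hu'⟩ := (hR i).bad p hP2.1 hP2.2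
        have h6 : g ∈ (X (i + 1)).G := hGmono (show Nat.find hex + 1 ≤ i + 1 by omega) hg
        have h7 : g = g' := hu' g h6 (hg1.symm.trans hg1') hga
        have h8 : (((g'.1, g'.2, 0), p.2) : Pt Ω) ∈ (X i).A := by
          rw [← h7]
          exact hAmono h3 hgA
        have h9 := (hR i).small _ h8
        have h10 : (1 / 2 : ℝ) ^ i = (1 / 2 : ℝ) ^ (i + 1) + (1 / 2 : ℝ) ^ (i + 1) := by
          rw [pow_succ]; ring
        rw [h10]
        linarith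
      · have : |val (w ((X (i + 1)).k)) p| ≤ (1 / 2 : ℝ) ^ (i + 1) := by
          by_contra hh
          exact hP2 ⟨hP1, not_le.1 hh⟩
        exact this.trans hp2
  have hs : ∀ j : ℕ, ∑ i ∈ Finset.range L, (if i = j then (1 : ℝ) else 0) ≤ 1 := by
    intro j
    rw [Finset.sum_ite_eq']
    split_ifs <;> norm_num
  have hgeo : ∑ i ∈ Finset.range L, (1 / 2 : ℝ) ^ i ≤ 2 := by
    have : ∑ i ∈ Finset.range L, (1 / 2 : ℝ) ^ i = 2 - 2 * (1 / 2 : ℝ) ^ L := by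
      clear hs
      induction L with
      | zero => simp
      | succ n ih => rw [Finset.sum_range_succ, ih, pow_succ]; ring
    rw [this]
    have : (0 : ℝ) < (1 / 2 : ℝ) ^ L := by positivity
    linarith
  calc ∑ i ∈ Finset.range L, |val (w ((X (i + 1)).k)) p|
      ≤ ∑ i ∈ Finset.range L, ((1 / 2 : ℝ) ^ i +
          ((if i = i1 then 1 else 0) + (if i = i2 then 1 else 0))) :=
        Finset.sum_le_sum (fun i _ => hmain i)
    _ = ∑ i ∈ Finset.range L, (1 / 2 : ℝ) ^ i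
        + (∑ i ∈ Finset.range L, (if i = i1 then (1 : ℝ) else 0)
          + ∑ i ∈ Finset.range L, (if i = i2 then (1 : ℝ) else 0)) := by
        rw [Finset.sum_add_distrib, Finset.sum_add_distrib]
    _ ≤ 2 + (1 + 1) := add_le_add hgeo (add_le_add (hs i1) (hs i2))
    _ ≤ 10 := by norm_num

end Pool.Agent.MP156639
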