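import Mathlib
import Pool.Agent.Work.MP_156639_an.Interface

set_option autoImplicit false

open Filter Topology

namespace Pool.Agent.MP156639

theorem geom_le (L : ℕ) : ∑ i ∈ Finset.range L, (1 / 2 : ℝ) ^ i ≤ 2 := by
  have : ∑ i ∈ Finset.range L, (1 / 2 : ℝ) ^ i = 2 - 2 * (1 / 2 : ℝ) ^ L := by
    induction L with
    | zero => simp
    | succ n ih => rw [Finset.sum_range_succ, ih, pow_succ]; ring
  rw [this]
  have : (0 : ℝ) < (1 / 2 : ℝ) ^ L := by positivity
  linarith

theorem stmt_W1 : Stmt_W1 := by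
  intro Y _ _ Q S hQm hSm hQadd hSadd hQsm hSsm hb hle hdom hsmall g δ hδ
  by_contra hcon
  push Not at hcon
  -- normalised vectors
  have key : ∀ ε > 0, ∃ y : Y, ‖y‖ ≤ 1 ∧ S ε y ∧ δ < g y := by
    intro ε hε
    obtain ⟨y, C, hC, hSC, hlt⟩ := hcon (‖g‖ / ε) (by positivity)
    have hgy : |g y| ≤ ‖g‖ * ‖y‖ := g.le_opNorm y
    have hg0 : 0 < ‖g‖ := by
      rcases (norm_nonneg g).eq_or_lt with h | h
      · exfalso
        rw [← h] at hgy hlt
        have h1 : 0 ≤ δ * ‖y‖ := by positivity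
        simp at hgy hlt
        rw [hgy] at hlt
        simp at hlt
        linarith
      · exact h
    have hy0 : 0 < ‖y‖ := by
      rcases (norm_nonneg y).eq_or_lt with h | h
      · exfalso
        rw [← h] at hgy hlt
        have h1 : 0 ≤ ‖g‖ / ε * C := by positivity
        simp only [mul_zero, add_zero] at hgy hlt
        linarith
      · exact h
    have hCε : C ≤ ε * ‖y‖ := by
      have h1 : ‖g‖ / ε * C ≤ ‖g‖ * ‖y‖ := by
        have : 0 ≤ δ * ‖y‖ := by positivity
        linarith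
      have h2 : ‖g‖ * C ≤ ‖g‖ * (ε * ‖y‖) := by
        calc ‖g‖ * C = ε * (‖g‖ / ε * C) := by field_simp
          _ ≤ ε * (‖g‖ * ‖y‖) := mul_le_mul_of_nonneg_left h1 hε.le
          _ = ‖g‖ * (ε * ‖y‖) := by ring
      exact le_of_mul_le_mul_left h2 hg0
    have hgd : δ * ‖y‖ < |g y| := by
      have : 0 ≤ ‖g‖ / ε * C := by positivity
      linarith
    -- the sign
    obtain ⟨σ, hσ, hσg⟩ : ∃ σ : ℝ, |σ| = 1 ∧ σ * g y = |g y| := by
      rcases le_or_gt 0 (g y) with h | h
      · exact ⟨1, by simp, by rw [abs_of_nonneg h]; ring⟩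
      · exact ⟨-1, by simp, by rw [abs_of_neg h]; ring⟩
    refine ⟨(σ / ‖y‖) • y, ?_, ?_, ?_⟩
    · rw [norm_smul, Real.norm_eq_abs, abs_div, hσ, abs_of_pos hy0]
      rw [one_div, inv_mul_cancel₀ hy0.ne']
    · apply hSm (|σ / ‖y‖| * C)
      · rw [abs_div, hσ, abs_of_pos hy0, one_div, inv_mul_le_iff₀ hy0, mul_comm]
        exact hCε
      · exact hSsm _ _ _ hSC
    · rw [map_smul, smul_eq_mul]
      have : σ / ‖y‖ * g y = |g y| / ‖y‖ := by rw [← hσg]; ring
      rw [this, lt_div_iff₀ hy0]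
      exact hgd
  -- one step
  have step : ∀ (i n : ℕ), ∃ (y : Y) (n' : ℕ), n ≤ n' ∧ ‖y‖ ≤ 1 ∧ S ((1 / 2 : ℝ) ^ i) y ∧ δ < g y ∧
      (∀ k < n, Q k ((1 / 2 : ℝ) ^ i) y) ∧ ∀ k ≥ n', Q k ((1 / 2 : ℝ) ^ i) y := by
    intro i n
    have hdom' : ∃ c : ℝ, 0 ≤ c ∧ ∀ k < n, ∀ C y, 0 ≤ C → S C y → Q k (c * C) y := by
      induction n with
      | zero => exact ⟨0, le_refl _, fun k hk => absurd hk (Nat.not_lt_zero k)⟩
      | succ n ih =>
        obtain ⟨c, hc, h⟩ := ih
        obtain ⟨c', hc', h'⟩ := hdom n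
        refine ⟨c + c', by positivity, ?_⟩
        intro k hk C y hC hS
        rcases Nat.lt_or_ge k n with h1 | h1
        · apply hQm k (c * C)
          · have : 0 ≤ c' * C := by positivity
            linarith
          · exact h k h1 C y hC hS
        · obtain rfl : k = n := by omega
          apply hQm k (c' * C)
          · have : 0 ≤ c * C := by positivity
            linarith
          · exact h' C y hC hS
    obtain ⟨c, hc, hcd⟩ := hdom'
    have hp : (0 : ℝ) < (1 / 2 : ℝ) ^ i := by positivity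
    obtain ⟨y, hy1, hyS, hyg⟩ := key ((1 / 2 : ℝ) ^ i / (c + 1)) (by positivity)
    obtain ⟨n₀, hn₀⟩ := hsmall y ((1 / 2 : ℝ) ^ i) hp
    refine ⟨y, max n n₀, le_max_left _ _, hy1, ?_, hyg, ?_, ?_⟩
    · apply hSm _ _ _ _ hyS
      rw [div_le_iff₀ (by positivity)]
      nlinarith
    · intro k hk
      have h1 := hcd k hk _ y (by positivity) hyS
      apply hQm k _ _ _ _ h1
      rw [← mul_div_assoc, div_le_iff₀ (by positivity)]
      nlinarith
    · intro k hk
      exact hn₀ k (le_trans (le_max_right _ _) hk)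
  choose Yf Nf h1 h2 h3 h4 h5 h6 using step
  obtain ⟨n, hn0, hn⟩ : ∃ n : ℕ → ℕ, n 0 = 0 ∧ ∀ i, n (i + 1) = Nf i (n i) :=
    ⟨fun i => Nat.rec (motive := fun _ => ℕ) 0 (fun i n => Nf i n) i, rfl, fun _ => rfl⟩
  let y : ℕ → Y := fun i => Yf i (n i)
  have hmono : ∀ i, n i ≤ n (i + 1) := fun i => by rw [hn]; exact h1 i (n i)
  have hS : ∀ L : ℕ, S (∑ i ∈ Finset.range L, (1 / 2 : ℝ) ^ i) (∑ i ∈ Finset.range L, y i) := by
    intro L
    induction L with
    | zero =>
      simp only [Finset.range_zero, Finset.sum_empty]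
      have := (hb (0 : Y)).1
      rwa [norm_zero] at this
    | succ L ih =>
      rw [Finset.sum_range_succ, Finset.sum_range_succ]
      exact hSadd _ _ _ _ ih (h3 L (n L))
  have hQ : ∀ k L : ℕ, Q k ((∑ i ∈ Finset.range L, (1 / 2 : ℝ) ^ i)
      + ((1 : ℝ) - (if n L ≤ k then (1 : ℝ) else 0))) (∑ i ∈ Finset.range L, y i) := by
    intro k L
    induction L with
    | zero =>
      simp only [Finset.range_zero, Finset.sum_empty]
      have := (hb (0 : Y)).2 k
      rw [norm_zero] at this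
      have h0 : n 0 ≤ k := by rw [hn0]; exact Nat.zero_le _
      rw [if_pos h0]
      simpa using this
    | succ L ih =>
      rw [Finset.sum_range_succ, Finset.sum_range_succ]
      by_cases c1 : n L ≤ k
      · by_cases c2 : n (L + 1) ≤ k
        · rw [if_pos c2]
          rw [if_pos c1] at ih
          have := hQadd k _ _ _ _ ih (h6 L (n L) k (by rw [← hn]; exact c2))
          apply hQm k _ _ _ _ this
          linarith
        · rw [if_neg c2]
          rw [if_pos c1] at ih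
          have h7 : Q k 1 (y L) := hQm k _ _ _ (h2 L (n L)) ((hb (y L)).2 k)
          have := hQadd k _ _ _ _ ih h7
          apply hQm k _ _ _ _ this
          have : (0 : ℝ) < (1 / 2 : ℝ) ^ L := by positivity
          linarith
      · have c2 : ¬ n (L + 1) ≤ k := fun h => c1 ((hmono L).trans h)
        rw [if_neg c2]
        rw [if_neg c1] at ih
        have := hQadd k _ _ _ _ ih (h5 L (n L) k (not_le.1 c1))
        apply hQm k _ _ _ _ this
        linarith
  have hnorm : ∀ L, ‖∑ i ∈ Finset.range L, y i‖ ≤ 3 := by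
    intro L
    apply hle _ 3 (by norm_num)
    · exact hSm _ _ _ ((geom_le L).trans (by norm_num)) (hS L)
    · intro k
      apply hQm k _ _ _ _ (hQ k L)
      have := geom_le L
      split_ifs <;> linarith
  have hg : ∀ L : ℕ, (L : ℝ) * δ ≤ g (∑ i ∈ Finset.range L, y i) := by
    intro L
    rw [map_sum]
    calc (L : ℝ) * δ = ∑ i ∈ Finset.range L, δ := by simp
      _ ≤ _ := Finset.sum_le_sum (fun i _ => (h4 i (n i)).le)
  obtain ⟨L, hL⟩ := exists_nat_gt (‖g‖ * 3 / δ)
  have h8 : ‖g‖ * 3 < L * δ := by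
    rwa [div_lt_iff₀ hδ] at hL
  have h9 : g (∑ i ∈ Finset.range L, y i) ≤ ‖g‖ * 3 := by
    calc g (∑ i ∈ Finset.range L, y i) ≤ |g (∑ i ∈ Finset.range L, y i)| := le_abs_self _
      _ ≤ ‖g‖ * ‖∑ i ∈ Finset.range L, y i‖ := g.le_opNorm _
      _ ≤ ‖g‖ * 3 := mul_le_mul_of_nonneg_left (hnorm L) (norm_nonneg _)
  have h10 := hg L
  linarith

end Pool.Agent.MP156639
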